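import Pool.Agent.V11213.SlTwo.Frame

/-!
# MP_4cfd5d_gt (Q1): the `sl(2)` weight system at `c = -3/32` extends to a 4-invariant of graphs

`ChordDiagram n`, `ChordDiagram.interGraph`, `IsFourInvariant`, `casimir`, `weightSl2` are defined
in `Pool.Agent.V11213.SlTwo.Defs`.

For a graph `G` on `n` vertices and `N : ℕ` let
`c_G(N) = ∑_{f : V × Bool → Fin N} ∏_u (if f (u,0) = f (u,1) then 0 else 2) *
  ∏_{edges uv} ∏_{s,t} (-1)^[f (u,s) = f (v,t)]`;
this is a polynomial in `N` and the extension is `ξ(G) = (-1/128)^n c_G(-2)`.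
-/

open Finset Polynomial

namespace Pool.Agent.Results.MP_4cfd5d_gt.OscillatorExtension

open Pool.Agent.V11213.SlTwo

/-- The explicit 4-invariant: `ξ(G) = (-1/128)^n · c_G(-2)`. -/
noncomputable def xi (n : ℕ) (G : SimpleGraph (Fin n)) : ℂ :=
  (-1/128) ^ n * (cpol G).eval (-2)

lemma xi_four : IsFourInvariant xi where
  iso := by
    rintro n G G' ⟨φ⟩
    unfold xi
    rw [cpol_iso G G' φ]
  four := by
    intro n G a b hab
    have h := congrArg (eval (-2)) (cpol_four G a b hab)
    simp only [eval_sub] at h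
    unfold xi
    rw [← mul_sub, ← mul_sub, h]

/-- Multiplication by `X` and differentiation satisfy the Weyl relation. -/
lemma weyl : (derivative : ℂ[X] →ₗ[ℂ] ℂ[X]) * (LinearMap.mulLeft ℂ (X : ℂ[X])) =
    (LinearMap.mulLeft ℂ (X : ℂ[X])) * (derivative : ℂ[X] →ₗ[ℂ] ℂ[X]) + 1 := by
  apply LinearMap.ext
  intro f
  simp only [Module.End.mul_apply, LinearMap.mulLeft_apply, LinearMap.add_apply,
    Module.End.one_apply, derivative_mul, derivative_X, one_mul]
  ring

/-- The value of the specialisation. -/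
lemma xi_eq {n : ℕ} (D : ChordDiagram n) (P : ℂ[X]) (hP : aeval casimir P = weightSl2 D) :
    xi n D.interGraph = P.eval (-3/32) := by
  have h1 := osc_weight weyl D
  rw [← hP, ← Polynomial.aeval_algHom_apply, osc_casimir weyl] at h1
  have h2 : aeval ((-3/32 : ℂ) • (1 : Module.End ℂ ℂ[X])) P =
      P.eval (-3/32) • (1 : Module.End ℂ ℂ[X]) := by
    rw [← Algebra.algebraMap_eq_smul_one, Polynomial.aeval_algebraMap_apply,
      Algebra.algebraMap_eq_smul_one]
    simp [Polynomial.aeval_def, Polynomial.eval₂_eq_eval_map]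
  rw [h2] at h1
  have h3 := congrArg (fun T : Module.End ℂ ℂ[X] => (T 1).coeff 0) h1
  simp only [LinearMap.smul_apply, Module.End.one_apply, coeff_smul, coeff_one_zero, smul_eq_mul,
    mul_one] at h3
  unfold xi
  exact h3.symm

/-- **Theorem.** There is a 4-invariant of graphs `ξ` which extends the specialisation at
`c = -3/32` of the `sl(2)` weight system: for every chord diagram `D`, the value `weightSl2 D` is a
polynomial in the Casimir element, and for every polynomial `P` with `P(C) = weightSl2 D` one has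
`ξ(Γ(D)) = P(-3/32)`. -/
theorem result : ∃ ξ : (n : ℕ) → SimpleGraph (Fin n) → ℂ, IsFourInvariant ξ ∧
    ∀ (n : ℕ) (D : ChordDiagram n), (∃ P : ℂ[X], aeval casimir P = weightSl2 D) ∧
      ∀ P : ℂ[X], aeval casimir P = weightSl2 D → ξ n D.interGraph = P.eval (-3/32) :=
  ⟨xi, xi_four, fun _ D => ⟨exists_poly D, fun P hP => xi_eq D P hP⟩⟩

end Pool.Agent.Results.MP_4cfd5d_gt.OscillatorExtension
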